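import Pool.Agent.FHQ.StmtsT

/-! Squad FHQ, row TM3: periodicity in the height. -/

open scoped BigOperators

noncomputable section

namespace Pool.Agent.FHQ.H70

/-- the exceptions to periodicity -/
def exs (φ : ℤ → Prop) (m : ℕ) : Set ℤ := {g | ¬ (φ g ↔ φ (g + m))}

theorem exs_mul {φ : ℤ → Prop} {m N : ℕ} (hf : (exs φ m).Finite) (hc : (exs φ m).ncard ≤ N)
    (q : ℕ) : (exs φ (q * m)).Finite ∧ (exs φ (q * m)).ncard ≤ q * N := by
  induction q with
  | zero =>
    have h : exs φ (0 * m) = ∅ := by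
      ext g
      unfold exs
      simp
    rw [h]
    exact ⟨Set.finite_empty, by simp⟩
  | succ q ih =>
    have h : exs φ ((q + 1) * m) ⊆ exs φ (q * m) ∪ (fun x => x - (q * m : ℕ)) '' exs φ m := by
      intro g hg
      by_cases h1 : g ∈ exs φ (q * m)
      · exact Or.inl h1
      · right
        refine ⟨g + (q * m : ℕ), ?_, by ring⟩
        intro h2
        apply hg
        unfold exs at h1
        simp only [Set.mem_setOf_eq, not_not] at h1
        have h3 : g + ((q * m : ℕ) : ℤ) + m = g + (((q + 1) * m : ℕ) : ℤ) := by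
          push_cast
          ring
        rw [h3] at h2
        exact h1.trans h2
    have hfin := (ih.1.union (hf.image (fun x => x - ((q * m : ℕ) : ℤ))))
    refine ⟨hfin.subset h, ?_⟩
    calc (exs φ ((q + 1) * m)).ncard ≤ _ := Set.ncard_le_ncard h hfin
      _ ≤ (exs φ (q * m)).ncard + ((fun x => x - ((q * m : ℕ) : ℤ)) '' exs φ m).ncard :=
        Set.ncard_union_le _ _
      _ ≤ q * N + N := Nat.add_le_add ih.2 ((Set.ncard_image_le hf).trans hc)
      _ = (q + 1) * N := by ring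

theorem ncard_iUnion {ι : Type} [Fintype ι] (A : ι → Set ℤ) (hA : ∀ i, (A i).Finite) :
    (⋃ i, A i).Finite ∧ (⋃ i, A i).ncard ≤ ∑ i, (A i).ncard := by
  classical
  have hfin : (⋃ i, A i).Finite := Set.finite_iUnion hA
  refine ⟨hfin, ?_⟩
  have h1 : ∀ i, (A i).ncard = (hA i).toFinset.card := fun i => Set.ncard_eq_toFinset_card _ (hA i)
  rw [Set.ncard_eq_toFinset_card _ hfin, Finset.sum_congr rfl fun i _ => h1 i]
  refine (Finset.card_le_card ?_).trans (Finset.card_biUnion_le (s := Finset.univ)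
    (t := fun i => (hA i).toFinset))
  intro x hx
  rw [Set.Finite.mem_toFinset, Set.mem_iUnion] at hx
  obtain ⟨i, hi⟩ := hx
  exact Finset.mem_biUnion.2 ⟨i, Finset.mem_univ _, (Set.Finite.mem_toFinset _).2 hi⟩

/-! ### Presburger sets -/

theorem pd_congr {n : ℕ} {S T : (Fin n → ℤ) → Prop} (h : PD n S) (e : ∀ x, S x ↔ T x) : PD n T := by
  have h1 : S = T := funext fun x => propext (e x)
  rw [← h1]
  exact h

theorem pd_const {n : ℕ} (c : Prop) : PD n (fun _ => c) := by
  by_cases hc : c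
  · refine pd_congr (PD.le 0 0) fun x => ?_
    simp [hc]
  · refine pd_congr (PD.le 0 (-1)) fun x => ?_
    simp [hc]

theorem pd_imp {n : ℕ} {S T : (Fin n → ℤ) → Prop} (h : PD n S) (h' : PD n T) :
    PD n (fun x => S x → T x) := by
  refine pd_congr (PD.not (PD.and h (PD.not h'))) fun x => ?_
  tauto

theorem pd_all {n : ℕ} : ∀ (D : ℕ) (S : Fin D → (Fin n → ℤ) → Prop), (∀ k, PD n (S k)) →
    PD n (fun x => ∀ k, S k x)
  | 0, S, _ => pd_congr (pd_const True) fun x => ⟨fun _ k => k.elim0, fun _ => trivial⟩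
  | D + 1, S, h => by
    refine pd_congr (PD.and (h 0) (pd_all D (fun k => S k.succ) (fun k => h k.succ))) fun x => ?_
    rw [Fin.forall_fin_succ]

theorem sum_single {n : ℕ} (j : Fin n) (c : ℤ) (x : Fin n → ℤ) :
    ∑ i, (Pi.single j c : Fin n → ℤ) i * x i = c * x j := by
  rw [Finset.sum_eq_single j]
  · rw [Pi.single_eq_same]
  · intro i _ hi
    rw [Pi.single_eq_of_ne hi, zero_mul]
  · intro h
    exact absurd (Finset.mem_univ _) h

theorem pd_le2 {n : ℕ} (j1 j2 j0 : Fin n) (c1 c2 : ℤ) :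
    PD n (fun x => x j1 + c1 * x j0 ≤ x j2 + c2 * x j0) := by
  refine pd_congr (PD.le (Pi.single j2 1 + Pi.single j1 (-1) + Pi.single j0 (c2 - c1)) 0)
    fun x => ?_
  have h1 : ∑ i, (Pi.single j2 1 + Pi.single j1 (-1) + Pi.single j0 (c2 - c1) : Fin n → ℤ) i * x i =
      x j2 - x j1 + (c2 - c1) * x j0 := by
    simp only [Pi.add_apply, add_mul, Finset.sum_add_distrib]
    rw [sum_single, sum_single, sum_single]
    ring
  rw [h1]
  constructor
  · intro h
    linarith
  · intro h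
    linarith

/-! ### Leading terms -/

theorem mu_of_arg {p D : ℕ} {a : Fin D → ZMod p} {s : Fin D → ℤ} {g : ℤ} {k : Fin D}
    (h : Arg a s g k) : Mu a s g = s k + (k : ℕ) * g := by
  classical
  have hex : ∃ k, Arg a s g k := ⟨k, h⟩
  unfold Mu
  rw [dif_pos hex]
  exact le_antisymm (hex.choose_spec.2 k h.1) (h.2 _ hex.choose_spec.1)

theorem mu_of_not {p D : ℕ} {a : Fin D → ZMod p} {s : Fin D → ℤ} {g : ℤ}
    (h : ¬ ∃ k, Arg a s g k) : Mu a s g = 0 := by
  classical
  unfold Mu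
  rw [dif_neg h]

theorem sp_congr {p D : ℕ} {a : Fin D → ZMod p} {s : Fin D → ℤ} {g g' : ℤ}
    (h : ∀ k, Arg a s g k ↔ Arg a s g' k) (z : ZMod p) : Sp a s g z = Sp a s g' z := by
  classical
  unfold Sp
  refine Finset.sum_congr rfl fun k _ => ?_
  by_cases hk : Arg a s g k
  · rw [if_pos hk, if_pos ((h k).1 hk)]
  · rw [if_neg hk, if_neg (fun h' => hk ((h k).2 h'))]

/-- the argument condition as a Presburger condition -/
def cA {r D : ℕ} (Z : Finset (Fin r × Fin D)) (l : Fin r) (k : Fin D)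
    (x : Fin (r * D + 1) → ℤ) : Prop :=
  (l, k) ∈ Z ∧ ∀ k' : Fin D, (l, k') ∈ Z →
    x (finProdFinEquiv (l, k)).succ + (k : ℕ) * x 0 ≤
      x (finProdFinEquiv (l, k')).succ + (k' : ℕ) * x 0

theorem pd_cA {r D : ℕ} (Z : Finset (Fin r × Fin D)) (l : Fin r) (k : Fin D) :
    PD (r * D + 1) (cA Z l k) := by
  refine PD.and (pd_const _) (pd_all D _ fun k' => pd_imp (pd_const _) ?_)
  exact pd_le2 _ _ _ _ _

/-- the affine value for a choice of argument indices -/
def vl {r D : ℕ} (κ : Fin r → Option (Fin D)) (x : Fin (r * D + 1) → ℤ) (l : Fin r) : ℤ :=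
  match κ l with
  | some k => x (finProdFinEquiv (l, k)).succ + (k : ℕ) * x 0
  | none => 0

theorem pd_vl (psb : PsbStmt) {r D : ℕ} (κ : Fin r → Option (Fin D)) (B : (Fin r → ℤ) → Prop)
    (hB : PD r B) : PD (r * D + 1) (fun x => B (vl κ x)) := by
  refine pd_congr (psb r (r * D + 1) B hB (fun l => match κ l with
    | some k => Pi.single (finProdFinEquiv (l, k)).succ 1 + Pi.single 0 ((k : ℕ) : ℤ)
    | none => 0) (fun _ => 0)) fun x => ?_
  have h1 : (fun i : Fin r => ∑ j, (match κ i with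
      | some k => Pi.single (finProdFinEquiv (i, k)).succ 1 + Pi.single 0 ((k : ℕ) : ℤ)
      | none => 0 : Fin (r * D + 1) → ℤ) j * x j + 0) = vl κ x := by
    funext l
    unfold vl
    cases h : κ l with
    | none => simp
    | some k =>
      simp only [Pi.add_apply, add_mul, Finset.sum_add_distrib]
      rw [sum_single, sum_single]
      ring
  rw [h1]

theorem tm3 (per : PerStmt) (psb : PsbStmt) : Tm3Stmt := by
  classical
  rintro r D C ⟨L, hL⟩
  -- the conditions
  obtain ⟨Φ, hΦ⟩ : ∃ Φ : (Finset (Fin r × Fin D) × Fin r × Fin D) ⊕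
      (Fin L.length × (Fin r → Option (Fin D))) → (Fin (r * D + 1) → ℤ) → Prop,
      Φ = Sum.elim (fun c => cA c.1 c.2.1 c.2.2) (fun c x => (L.get c.1).B (vl c.2 x)) := ⟨_, rfl⟩
  have hPD : ∀ c, PD (r * D + 1) (Φ c) := by
    rw [hΦ]
    rintro (c | c)
    · exact pd_cA _ _ _
    · exact pd_vl psb _ _ (L.get c.1).hB
  have hper := fun c => per (r * D) (Φ c) (hPD c)
  choose m N hm hmN using hper
  obtain ⟨mm, hmm⟩ : ∃ mm : ℕ, mm = ∏ c, m c := ⟨_, rfl⟩
  have hmmpos : 0 < mm := by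
    rw [hmm]
    exact Finset.prod_pos fun c _ => hm c
  have hdvd : ∀ c, ∃ q : ℕ, mm = q * m c := by
    intro c
    obtain ⟨q, hq⟩ := Finset.dvd_prod_of_mem m (Finset.mem_univ c)
    exact ⟨q, by rw [hmm, hq]; ring⟩
  choose q hq using hdvd
  refine ⟨mm, ∑ c, q c * N c, hmmpos, ?_⟩
  intro p a s
  obtain ⟨x, hx⟩ : ∃ x : Fin (r * D) → ℤ, x = fun j => s (finProdFinEquiv.symm j) := ⟨_, rfl⟩
  have hxs : ∀ (g : ℤ) l k, (Fin.cons g x : Fin (r * D + 1) → ℤ) (finProdFinEquiv (l, k)).succ =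
      s (l, k) := by
    intro g l k
    rw [Fin.cons_succ, hx]
    exact congrArg s (finProdFinEquiv.symm_apply_apply (l, k))
  have hx0 : ∀ (g : ℤ), (Fin.cons g x : Fin (r * D + 1) → ℤ) 0 = g := fun g => Fin.cons_zero _ _
  have hex : ∀ c, (exs (fun g => Φ c (Fin.cons g x)) mm).Finite ∧
      (exs (fun g => Φ c (Fin.cons g x)) mm).ncard ≤ q c * N c := by
    intro c
    rw [hq c]
    exact exs_mul (hmN c x).1 (hmN c x).2 (q c)
  obtain ⟨hU1, hU2⟩ := ncard_iUnion (fun c => exs (fun g => Φ c (Fin.cons g x)) mm)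
    (fun c => (hex c).1)
  have hsub : {g : ℤ | ∃ z, ¬ (Lead r D C a s z g ↔ Lead r D C a s z (g + mm))} ⊆
      ⋃ c, exs (fun g => Φ c (Fin.cons g x)) mm := by
    rintro g ⟨z, hz⟩
    by_contra hcon
    apply hz
    have hc : ∀ c, (Φ c (Fin.cons g x) ↔ Φ c (Fin.cons (g + mm) x)) := by
      intro c
      by_contra h1
      exact hcon (Set.mem_iUnion.2 ⟨c, h1⟩)
    -- argument indices
    obtain ⟨Z, hZ⟩ : ∃ Z : Finset (Fin r × Fin D), Z = Finset.univ.filter (fun i => a i ≠ 0) :=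
      ⟨_, rfl⟩
    have memZ : ∀ i, i ∈ Z ↔ a i ≠ 0 := by
      intro i
      rw [hZ, Finset.mem_filter]
      exact ⟨fun h => h.2, fun h => ⟨Finset.mem_univ _, h⟩⟩
    have hAc : ∀ (G : ℤ) l k, Arg (fun k => a (l, k)) (fun k => s (l, k)) G k ↔
        cA Z l k (Fin.cons G x) := by
      intro G l k
      unfold Arg cA
      rw [memZ, hxs, hx0]
      refine and_congr Iff.rfl (forall_congr' fun k' => ?_)
      rw [memZ, hxs]
    have hA : ∀ l k, Arg (fun k => a (l, k)) (fun k => s (l, k)) g k ↔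
        Arg (fun k => a (l, k)) (fun k => s (l, k)) (g + mm) k := by
      intro l k
      rw [hAc, hAc]
      have h1 := hc (Sum.inl (Z, l, k))
      rw [hΦ] at h1
      exact h1
    obtain ⟨κ, hκ⟩ : ∃ κ : Fin r → Option (Fin D), κ = fun l =>
      if h : ∃ k, Arg (fun k => a (l, k)) (fun k => s (l, k)) g k then some h.choose else none :=
      ⟨_, rfl⟩
    have hMu : ∀ G : ℤ, (∀ l k, Arg (fun k => a (l, k)) (fun k => s (l, k)) g k ↔
        Arg (fun k => a (l, k)) (fun k => s (l, k)) G k) →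
        (fun l => Mu (fun k => a (l, k)) (fun k => s (l, k)) G) = vl κ (Fin.cons G x) := by
      intro G hG
      funext l
      unfold vl
      by_cases h : ∃ k, Arg (fun k => a (l, k)) (fun k => s (l, k)) g k
      · have h1 : κ l = some h.choose := by
          rw [hκ]
          exact dif_pos h
        rw [h1]
        show _ = (Fin.cons G x : Fin (r * D + 1) → ℤ) (finProdFinEquiv (l, h.choose)).succ +
          ((h.choose : Fin D) : ℕ) * (Fin.cons G x : Fin (r * D + 1) → ℤ) 0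
        rw [hxs, hx0]
        exact mu_of_arg ((hG l _).1 h.choose_spec)
      · have h1 : κ l = none := by
          rw [hκ]
          exact dif_neg h
        rw [h1]
        refine mu_of_not fun h2 => h ?_
        obtain ⟨k, hk⟩ := h2
        exact ⟨k, (hG l k).2 hk⟩
    unfold Lead
    have hSp : (fun l => Sp (fun k => a (l, k)) (fun k => s (l, k)) g z) =
        fun l => Sp (fun k => a (l, k)) (fun k => s (l, k)) (g + mm) z :=
      funext fun l => sp_congr (hA l) z
    rw [hMu g (fun _ _ => Iff.rfl), hMu (g + mm) hA, ← hSp, hL, hL]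
    have hB : ∀ b ∈ L, (b.B (vl κ (Fin.cons g x)) ↔ b.B (vl κ (Fin.cons (g + mm) x))) := by
      intro b hb
      obtain ⟨i, hi⟩ := List.mem_iff_get.1 hb
      have h1 := hc (Sum.inr (i, κ))
      rw [hΦ] at h1
      have h2 : ((L.get i).B (vl κ (Fin.cons g x)) ↔ (L.get i).B (vl κ (Fin.cons (g + mm) x))) := h1
      rwa [hi] at h2
    constructor
    · rintro ⟨b, hb, h1, h2⟩
      exact ⟨b, hb, h1, (hB b hb).1 h2⟩
    · rintro ⟨b, hb, h1, h2⟩
      exact ⟨b, hb, h1, (hB b hb).2 h2⟩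
  refine ⟨hU1.subset hsub, (Set.ncard_le_ncard hsub hU1).trans (hU2.trans ?_)⟩
  exact Finset.sum_le_sum fun c _ => (hex c).2

end Pool.Agent.FHQ.H70
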