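import Pool.Agent.FHQ.StmtsU

/-! Squad FHQ, row BF: back and forth. -/

open scoped BigOperators

noncomputable section

namespace Pool.Agent.FHQ.H70

theorem bf (xt : XtStmt) (sat : SatStmt) : BfStmt := by
  intro p _ U hU hp K1 K2 θ hθ x
  by_cases hx : emb p U x ∈ K1
  · exact ⟨K1, K2, θ, hθ, ⟨le_rfl, fun a => rfl⟩, hx⟩
  · obtain ⟨P, hP1, hP2, hP3⟩ := xt p U hU hp K1 K2 θ hθ x hx
    have hanti : ∀ i j k, j ≤ k → P k i ⊆ P j i := by
      intro i j k hjk
      induction hjk with
      | refl => exact subset_rfl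
      | step _ ih => exact (hP2 _ i).trans ih
    obtain ⟨x', hx'⟩ := sat U hU (fun i => ZMod (p i)) (fun j i z => z ∈ P j i) (by
      intro k
      obtain ⟨c, hc⟩ := hP1 k
      refine hc.mono fun i hi => ?_
      have h1 : (P k i).ncard ≠ 0 := by
        intro h0
        rw [h0, mul_zero] at hi
        have := (Fact.out : (p i).Prime).pos
        omega
      obtain ⟨z, hz⟩ := Set.nonempty_of_ncard_ne_zero h1
      exact ⟨z, fun j hj => hanti i j k hj hz⟩)
    obtain ⟨K1', K2', θ', h1, h2, h3, -⟩ := hP3 x' hx'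
    exact ⟨K1', K2', θ', h1, h2, h3⟩

end Pool.Agent.FHQ.H70
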