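import Pool.Agent.FHQ.StmtsU

/-! Squad FHQ, row PIS: the inverse of a partial isomorphism. -/

open scoped BigOperators

noncomputable section

namespace Pool.Agent.FHQ.H70

open Polynomial

theorem PI.iter {p : ℕ → ℕ} [∀ i, Fact (p i).Prime] {U : Ultrafilter ℕ}
    {K1 K2 : Subfield (UF p U)} {θ : K1 ≃+* K2} (h : PI p U K1 K2 θ) (a : K1) (m : ℕ) :
    ∃ h : (⇑(Ph p U))^[m] (a : UF p U) ∈ K1,
      ((θ ⟨(⇑(Ph p U))^[m] (a : UF p U), h⟩ : K2) : UF p U) = (⇑(Ph p U))^[m] (θ a : K2) := by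
  induction m with
  | zero => exact ⟨a.2, rfl⟩
  | succ m ih =>
    obtain ⟨h1, h2⟩ := ih
    obtain ⟨h3, h4⟩ := h.st ⟨_, h1⟩
    have e1 : (⇑(Ph p U))^[m + 1] (a : UF p U) = Ph p U ((⇑(Ph p U))^[m] (a : UF p U)) :=
      Function.iterate_succ_apply' _ _ _
    have e2 : (⇑(Ph p U))^[m + 1] ((θ a : K2) : UF p U) =
        Ph p U ((⇑(Ph p U))^[m] ((θ a : K2) : UF p U)) := Function.iterate_succ_apply' _ _ _
    refine ⟨e1 ▸ h3, ?_⟩
    rw [e2, ← h2, ← h4]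
    congr 2
    exact Subtype.ext e1

theorem pis : PisStmt := by
  intro p _ U K1 K2 θ h
  refine ⟨?_, h.cl2, h.cl1, ?_, ?_, ?_⟩
  · have h1 : (K2 : Set (UF p U)) = Set.range (fun a : K1 => ((θ a : K2) : UF p U)) := by
      ext b
      constructor
      · intro hb
        exact ⟨θ.symm ⟨b, hb⟩, congrArg Subtype.val (θ.apply_symm_apply ⟨b, hb⟩)⟩
      · rintro ⟨a, rfl⟩
        exact (θ a).2
    rw [h1]
    have : Countable K1 := h.cnt.to_subtype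
    exact Set.countable_range _
  · intro b hb
    obtain ⟨m, hm, h1⟩ := h.fin (θ.symm ⟨b, hb⟩ : K1) (θ.symm ⟨b, hb⟩ : K1).2
    obtain ⟨h2, h3⟩ := PI.iter h (θ.symm ⟨b, hb⟩) m
    refine ⟨m, hm, ?_⟩
    rw [θ.apply_symm_apply] at h3
    rw [← h3]
    have h4 : (⟨(⇑(Ph p U))^[m] ((θ.symm ⟨b, hb⟩ : K1) : UF p U), h2⟩ : K1) = θ.symm ⟨b, hb⟩ :=
      Subtype.ext h1
    rw [h4, θ.apply_symm_apply]
  · intro b
    obtain ⟨h1, h2⟩ := h.st (θ.symm b)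
    rw [θ.apply_symm_apply] at h2
    have h3 : Ph p U (b : UF p U) ∈ K2 := h2 ▸ (θ _).2
    refine ⟨h3, ?_⟩
    have h4 : (⟨Ph p U (b : UF p U), h3⟩ : K2) = θ ⟨Ph p U ((θ.symm b : K1) : UF p U), h1⟩ :=
      Subtype.ext h2.symm
    rw [h4, θ.symm_apply_apply]
  · intro m hm
    obtain ⟨α, hα, h1, h2⟩ := h.al m hm
    refine ⟨(θ ⟨α, hα⟩ : K2), (θ ⟨α, hα⟩).2, ?_, ?_⟩
    · obtain ⟨h3, h4⟩ := PI.iter h ⟨α, hα⟩ m
      rw [← h4]
      congr 2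
      exact Subtype.ext h1
    · intro j hj hjm h5
      obtain ⟨h3, h4⟩ := PI.iter h ⟨α, hα⟩ j
      rw [← h4] at h5
      have h6 := θ.injective (Subtype.ext h5)
      exact h2 j hj hjm (congrArg Subtype.val h6)

end Pool.Agent.FHQ.H70
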