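import Pool.Agent.FHQ.StmtsP

/-! Squad FHQ, row PQE: elimination of a quantifier in Presburger arithmetic. -/

open scoped BigOperators

noncomputable section

namespace Pool.Agent.FHQ.H70

/-- the value of an affine form -/
def af {n : ℕ} (a : Fin n → ℤ) (b : ℤ) (x : Fin n → ℤ) : ℤ := ∑ j, a j * x j + b

theorem af_cons {n : ℕ} (a : Fin (n + 1) → ℤ) (b u : ℤ) (x : Fin n → ℤ) :
    af a b (Fin.cons u x) = a 0 * u + af (fun j => a j.succ) b x := by
  unfold af
  rw [Fin.sum_univ_succ]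
  simp only [Fin.cons_zero, Fin.cons_succ]
  ring

theorem af_cong {n : ℕ} {M : ℤ} (a : Fin n → ℤ) (b : ℤ) {x y : Fin n → ℤ}
    (h : ∀ j, x j ≡ y j [ZMOD M]) : af a b x ≡ af a b y [ZMOD M] := by
  unfold af
  refine Int.ModEq.add_right _ ?_
  rw [Int.modEq_iff_dvd, ← Finset.sum_sub_distrib]
  refine Finset.dvd_sum fun j _ => ?_
  rw [← mul_sub]
  exact Dvd.dvd.mul_left (Int.modEq_iff_dvd.1 (h j)) _

theorem qf_of_fintype {n : ℕ} {S : (Fin n → ℤ) → Prop} (ι : Type) [Fintype ι]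
    (a : ι → Fin n → ℤ) (b : ι → ℤ) (M : ℕ) (hM : 0 < M)
    (h : ∀ x y, (∀ i, 0 ≤ af (a i) (b i) x ↔ 0 ≤ af (a i) (b i) y) →
      (∀ j, x j ≡ y j [ZMOD M]) → (S x ↔ S y)) : QF n S := by
  refine ⟨Fintype.card ι, fun i => a ((Fintype.equivFin ι).symm i),
    fun i => b ((Fintype.equivFin ι).symm i), M, hM, fun x y h1 h2 => h x y (fun i => ?_) h2⟩
  have h3 := h1 (Fintype.equivFin ι i)
  simp only [Equiv.symm_apply_apply] at h3
  exact h3

/-- a point near one of the bounds with the same comparisons -/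
theorem near_form {ι : Type} [Fintype ι] (P : ι → Prop) (hP : ∃ i, P i) (τ : ι → ℤ) (C M : ℤ)
    (hC : 0 < C) (hM : 0 < M) (a : ℤ) :
    ∃ i, P i ∧ ∃ ε : ℤ, -(C * M) ≤ ε ∧ ε ≤ C * M ∧ ∃ a' : ℤ, C * a' = τ i + ε ∧
      a' ≡ a [ZMOD M] ∧
      ∀ j, P j → ((τ j ≤ C * a' ↔ τ j ≤ C * a) ∧ (C * a' ≤ τ j ↔ C * a ≤ τ j)) := by
  classical
  have hCM : 0 < C * M := mul_pos hC hM
  by_cases h : ∃ i, P i ∧ τ i ≤ C * a
  · obtain ⟨i0, hi0⟩ := h
    obtain ⟨i, hi, hmax⟩ := Finset.exists_max_image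
      (Finset.univ.filter fun i => P i ∧ τ i ≤ C * a) τ
      ⟨i0, Finset.mem_filter.2 ⟨Finset.mem_univ _, hi0⟩⟩
    rw [Finset.mem_filter] at hi
    have hmax' : ∀ j, P j → τ j ≤ C * a → τ j ≤ τ i := fun j hj hj' =>
      hmax j (Finset.mem_filter.2 ⟨Finset.mem_univ _, hj, hj'⟩)
    by_cases h0 : C * a - τ i = 0
    · refine ⟨i, hi.2.1, 0, by linarith, hCM.le, a, by linarith, Int.ModEq.refl a, fun j _ => ?_⟩
      exact ⟨Iff.rfl, Iff.rfl⟩
    · have h1 : 0 ≤ C * a - τ i - 1 := by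
        have := hi.2.2
        omega
      obtain ⟨q, hq⟩ : ∃ q, q = (C * a - τ i - 1) / (C * M) := ⟨_, rfl⟩
      have hq0 : 0 ≤ q := by rw [hq]; exact Int.ediv_nonneg h1 hCM.le
      have hdm := Int.mul_ediv_add_emod (C * a - τ i - 1) (C * M)
      have hm0 := Int.emod_nonneg (C * a - τ i - 1) hCM.ne'
      have hm1 := Int.emod_lt_of_pos (C * a - τ i - 1) hCM
      rw [← hq] at hdm
      have hCa' : C * (a - M * q) = C * a - C * M * q := by ring
      have hqCM : 0 ≤ C * M * q := mul_nonneg hCM.le hq0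
      refine ⟨i, hi.2.1, C * a - τ i - C * M * q, by linarith, by linarith, a - M * q,
        by rw [hCa']; ring, ?_, fun j hj => ⟨⟨fun h2 => ?_, fun h2 => ?_⟩,
          ⟨fun h2 => ?_, fun h2 => ?_⟩⟩⟩
      · rw [Int.modEq_iff_dvd]
        exact ⟨q, by ring⟩
      · rw [hCa'] at h2
        linarith
      · rw [hCa']
        have := hmax' j hj h2
        linarith
      · rw [hCa'] at h2
        by_contra h3
        push Not at h3
        have := hmax' j hj h3.le
        linarith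
      · rw [hCa']
        linarith
  · push Not at h
    obtain ⟨i0, hi0⟩ := hP
    obtain ⟨i, hi, hmin⟩ := Finset.exists_min_image
      (Finset.univ.filter fun i => P i) τ ⟨i0, Finset.mem_filter.2 ⟨Finset.mem_univ _, hi0⟩⟩
    rw [Finset.mem_filter] at hi
    have hmin' : ∀ j, P j → τ i ≤ τ j := fun j hj =>
      hmin j (Finset.mem_filter.2 ⟨Finset.mem_univ _, hj⟩)
    have h1 : 0 ≤ τ i - C * a - 1 := by
      have := h i hi.2
      omega
    obtain ⟨q, hq⟩ : ∃ q, q = (τ i - C * a - 1) / (C * M) := ⟨_, rfl⟩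
    have hq0 : 0 ≤ q := by rw [hq]; exact Int.ediv_nonneg h1 hCM.le
    have hdm := Int.mul_ediv_add_emod (τ i - C * a - 1) (C * M)
    have hm0 := Int.emod_nonneg (τ i - C * a - 1) hCM.ne'
    have hm1 := Int.emod_lt_of_pos (τ i - C * a - 1) hCM
    rw [← hq] at hdm
    have hCa' : C * (a + M * q) = C * a + C * M * q := by ring
    refine ⟨i, hi.2, -(τ i - C * a - C * M * q), by linarith, by linarith, a + M * q,
      by rw [hCa']; ring, ?_, fun j hj => ?_⟩
    · rw [Int.modEq_iff_dvd]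
      exact ⟨-q, by ring⟩
    · have h2 := hmin' j hj
      have h3 := h j hj
      have h4 : C * (a + M * q) < τ j := by
        rw [hCa']
        linarith
      exact ⟨⟨fun h5 => absurd h4 (not_lt.2 h5), fun h5 => absurd h3 (not_lt.2 h5)⟩,
        ⟨fun _ => h3.le, fun _ => h4.le⟩⟩

theorem pqe : PqeStmt := by
  classical
  rintro n S ⟨r, a, b, M, hM, hS⟩
  have hS' : ∀ x y : Fin (n + 1) → ℤ, (∀ i, 0 ≤ af (a i) (b i) x ↔ 0 ≤ af (a i) (b i) y) →
      (∀ j, x j ≡ y j [ZMOD M]) → (S x ↔ S y) := hS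
  -- the common multiple
  obtain ⟨C, hC, hd⟩ : ∃ C : ℕ, 0 < C ∧ ∀ i, a i 0 ≠ 0 → ∃ d : ℤ, a i 0 * d = C := by
    refine ⟨∏ i, (if a i 0 = 0 then 1 else (a i 0).natAbs), ?_, ?_⟩
    · refine Finset.prod_pos fun i _ => ?_
      split_ifs with h
      · exact one_pos
      · exact Int.natAbs_pos.2 h
    · intro i hi
      have h1 : (a i 0).natAbs ∣ ∏ i, (if a i 0 = 0 then 1 else (a i 0).natAbs) := by
        have h2 := Finset.dvd_prod_of_mem (fun i => if a i 0 = 0 then 1 else (a i 0).natAbs)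
          (Finset.mem_univ i)
        simp only [if_neg hi] at h2
        exact h2
      obtain ⟨d, hd⟩ := Int.natAbs_dvd.1 (Int.natCast_dvd_natCast.2 h1)
      exact ⟨d, hd.symm⟩
  have hd' : ∀ i, ∃ d : ℤ, a i 0 ≠ 0 → a i 0 * d = C := by
    intro i
    by_cases h : a i 0 = 0
    · exact ⟨0, fun h' => absurd h h'⟩
    · obtain ⟨d, hd⟩ := hd i h
      exact ⟨d, fun _ => hd⟩
  choose d hd using hd'
  have hCZ : (0 : ℤ) < C := by exact_mod_cast hC
  have hMZ : (0 : ℤ) < M := by exact_mod_cast hM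
  obtain ⟨t, ht⟩ : ∃ t : Fin r → (Fin n → ℤ) → ℤ, t = fun i => af (fun j => a i j.succ) (b i) :=
    ⟨_, rfl⟩
  obtain ⟨τ, hτ⟩ : ∃ τ : Fin r → (Fin n → ℤ) → ℤ, τ = fun i x => -d i * t i x := ⟨_, rfl⟩
  have hval : ∀ i u x, af (a i) (b i) (Fin.cons u x) = a i 0 * u + t i x := by
    intro i u x
    rw [af_cons, ht]
  -- signs
  have hpos : ∀ i u x, 0 < a i 0 → (0 ≤ af (a i) (b i) (Fin.cons u x) ↔ τ i x ≤ C * u) := by
    intro i u x hi
    have h1 := hd i hi.ne'
    have hdi : 0 < d i := by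
      by_contra h2
      push Not at h2
      nlinarith
    rw [hval, hτ]
    show 0 ≤ a i 0 * u + t i x ↔ -d i * t i x ≤ C * u
    rw [← h1]
    constructor
    · intro h2
      nlinarith
    · intro h2
      by_contra h3
      push Not at h3
      nlinarith
  have hneg : ∀ i u x, a i 0 < 0 → (0 ≤ af (a i) (b i) (Fin.cons u x) ↔ C * u ≤ τ i x) := by
    intro i u x hi
    have h1 := hd i hi.ne
    have hdi : d i < 0 := by
      by_contra h2
      push Not at h2
      nlinarith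
    rw [hval, hτ]
    show 0 ≤ a i 0 * u + t i x ↔ C * u ≤ -d i * t i x
    rw [← h1]
    constructor
    · intro h2
      nlinarith
    · intro h2
      by_contra h3
      push Not at h3
      nlinarith
  -- the comparison of two points
  have hcomp : ∀ u x v y, (∀ i, a i 0 = 0 → (0 ≤ t i x ↔ 0 ≤ t i y)) →
      (∀ i, a i 0 ≠ 0 → ((τ i x ≤ C * u ↔ τ i y ≤ C * v) ∧ (C * u ≤ τ i x ↔ C * v ≤ τ i y))) →
      u ≡ v [ZMOD M] → (∀ j, x j ≡ y j [ZMOD M]) → (S (Fin.cons u x) ↔ S (Fin.cons v y)) := by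
    intro u x v y h1 h2 h3 h4
    refine hS' _ _ (fun i => ?_) (fun j => ?_)
    · rcases lt_trichotomy (a i 0) 0 with h5 | h5 | h5
      · rw [hneg i u x h5, hneg i v y h5]
        exact (h2 i h5.ne).2
      · rw [hval, hval, h5, zero_mul, zero_mul, zero_add, zero_add]
        exact h1 i h5
      · rw [hpos i u x h5, hpos i v y h5]
        exact (h2 i h5.ne').1
    · refine Fin.cases ?_ (fun j => ?_) j
      · simp only [Fin.cons_zero]
        exact h3
      · simp only [Fin.cons_succ]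
        exact h4 j
  -- the new forms
  refine qf_of_fintype (Fin r ⊕ (Fin r × Fin r × Fin (2 * (C * M) + 1)))
    (Sum.elim (fun i j => a i j.succ) (fun i j => -d i.1 * a i.1 j.succ + d i.2.1 * a i.2.1 j.succ))
    (Sum.elim b (fun i => -d i.1 * b i.1 + d i.2.1 * b i.2.1 + ((i.2.2 : ℕ) - (C * M : ℕ) : ℤ)))
    (C * M) (Nat.mul_pos hC hM) ?_
  have hform : ∀ i j (e : Fin (2 * (C * M) + 1)) (x : Fin n → ℤ),
      af (fun l => -d i * a i (Fin.succ l) + d j * a j (Fin.succ l))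
        (-d i * b i + d j * b j + ((e : ℕ) - (C * M : ℕ) : ℤ)) x =
      τ i x - τ j x + ((e : ℕ) - (C * M : ℕ) : ℤ) := by
    intro i j e x
    rw [hτ, ht]
    unfold af
    have h1 : ∑ l, (-d i * a i (Fin.succ l) + d j * a j (Fin.succ l)) * x l =
        -d i * ∑ l, a i (Fin.succ l) * x l + d j * ∑ l, a j (Fin.succ l) * x l := by
      rw [Finset.mul_sum, Finset.mul_sum, ← Finset.sum_add_distrib]
      refine Finset.sum_congr rfl fun l _ => ?_
      ring
    rw [h1]
    ring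
  -- one direction
  have key : ∀ x y : Fin n → ℤ, (∀ i, 0 ≤ t i x ↔ 0 ≤ t i y) →
      (∀ i j (ε : ℤ), -(C * M : ℤ) ≤ ε → ε ≤ C * M →
        (0 ≤ τ i x - τ j x + ε ↔ 0 ≤ τ i y - τ j y + ε)) →
      (∀ j, x j ≡ y j [ZMOD ((C * M : ℕ) : ℤ)]) → (∃ u, S (Fin.cons u x)) →
      ∃ u, S (Fin.cons u y) := by
    rintro x y h1 h2 h3 ⟨u, hu⟩
    have h3M : ∀ j, x j ≡ y j [ZMOD M] := fun j => (h3 j).of_dvd ⟨C, by push_cast; ring⟩
    by_cases hP : ∃ i, a i 0 ≠ 0
    · obtain ⟨i, hi, ε, hε1, hε2, u', hu', hcong, hcmp⟩ :=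
        near_form (fun i => a i 0 ≠ 0) hP (fun i => τ i x) C M hCZ hMZ u
      have h4 : S (Fin.cons u' x) := by
        rw [hcomp u' x u x (fun i _ => Iff.rfl) (fun j hj => hcmp j hj) hcong
          (fun j => Int.ModEq.refl _)]
        exact hu
      have h5 : τ i x ≡ τ i y [ZMOD ((C * M : ℕ) : ℤ)] := by
        rw [hτ, ht]
        exact Int.ModEq.mul_left _ (af_cong _ _ h3)
      obtain ⟨w, hw⟩ := Int.modEq_iff_dvd.1 h5
      push_cast at hw
      have h6 : C * (u' + M * w) = τ i y + ε := by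
        have : τ i y = τ i x + C * M * w := by linarith
        rw [this]
        linear_combination hu'
      refine ⟨u' + M * w,
        (hcomp u' x (u' + M * w) y (fun j _ => h1 j) (fun j hj => ⟨?_, ?_⟩) ?_ h3M).1 h4⟩
      · rw [hu', h6]
        have h7 := h2 i j ε hε1 hε2
        constructor
        · intro h8
          have := h7.1 (by linarith)
          linarith
        · intro h8
          have := h7.2 (by linarith)
          linarith
      · rw [hu', h6]
        have h7 := h2 j i (-ε) (by linarith) (by linarith)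
        constructor
        · intro h8
          have := h7.1 (by linarith)
          linarith
        · intro h8
          have := h7.2 (by linarith)
          linarith
      · rw [Int.modEq_iff_dvd]
        exact ⟨w, by ring⟩
    · push Not at hP
      refine ⟨u, ?_⟩
      rw [← hcomp u x u y (fun j _ => h1 j) (fun j hj => absurd (hP j) hj) (Int.ModEq.refl _) h3M]
      exact hu
  intro x y hxy hcong
  have h1 : ∀ i, 0 ≤ t i x ↔ 0 ≤ t i y := by
    intro i
    have h2 := hxy (Sum.inl i)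
    rw [ht]
    exact h2
  have h2 : ∀ i j (ε : ℤ), -(C * M : ℤ) ≤ ε → ε ≤ C * M →
      (0 ≤ τ i x - τ j x + ε ↔ 0 ≤ τ i y - τ j y + ε) := by
    intro i j ε hε1 hε2
    have h3 : ((ε + C * M).toNat : ℤ) = ε + C * M := Int.toNat_of_nonneg (by linarith)
    have h4 : (ε + C * M).toNat < 2 * (C * M) + 1 := by
      zify
      rw [h3]
      linarith
    have h5 := hxy (Sum.inr (i, j, ⟨(ε + C * M).toNat, h4⟩))
    have h6 := hform i j ⟨(ε + C * M).toNat, h4⟩ x
    have h7 := hform i j ⟨(ε + C * M).toNat, h4⟩ y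
    have h8 : (((⟨(ε + C * M).toNat, h4⟩ : Fin (2 * (C * M) + 1)) : ℕ) - (C * M : ℕ) : ℤ) = ε := by
      show (((ε + C * M).toNat : ℕ) - (C * M : ℕ) : ℤ) = ε
      rw [h3]
      push_cast
      ring
    rw [h8] at h6 h7
    rw [← h6, ← h7]
    have h9 : (-d i * b i + d j * b j + ε : ℤ) = -d i * b i + d j * b j +
        (((⟨(ε + C * M).toNat, h4⟩ : Fin (2 * (C * M) + 1)) : ℕ) - (C * M : ℕ) : ℤ) := by rw [h8]
    rw [h9]
    exact h5
  exact ⟨key x y h1 h2 hcong, key y x (fun i => (h1 i).symm)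
    (fun i j ε e1 e2 => (h2 i j ε e1 e2).symm) (fun j => (hcong j).symm)⟩

end Pool.Agent.FHQ.H70
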