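import Pool.Agent.FHQ.StmtsT

/-! Squad FHQ, row TWI: change of the angular component. -/

open scoped BigOperators

noncomputable section

namespace Pool.Agent.FHQ.H70

open Polynomial

variable {p : ℕ} [Fact p.Prime] {K : Type} [Field K]

/-- the twisted angular component -/
def tw (A : AcF0 p K) (u : ZMod p) (hu : u ≠ 0) : AcF0 p K where
  v := A.v
  ac := fun x => A.ac x * u ^ (-A.v x)
  v_zero := A.v_zero
  ac_zero := by
    intro x
    rw [mul_eq_zero, A.ac_zero]
    exact ⟨fun h => h.resolve_right (zpow_ne_zero _ hu), Or.inl⟩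
  v_mul := A.v_mul
  ac_mul := by
    intro x y
    by_cases hx : x = 0
    · subst hx
      rw [zero_mul, (A.ac_zero 0).2 rfl]
      ring
    by_cases hy : y = 0
    · subst hy
      rw [mul_zero, (A.ac_zero 0).2 rfl]
      ring
    rw [A.ac_mul, A.v_mul x y hx hy, neg_add, zpow_add₀ hu]
    ring
  add_lt := by
    intro x y hx hy h
    obtain ⟨h1, h2⟩ := A.add_lt x y hx hy h
    exact ⟨h1, by rw [h1, h2]⟩
  add_eq := by
    intro x y hx hy h h'
    rw [← h, ← add_mul] at h'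
    obtain ⟨h1, h2⟩ := A.add_eq x y hx hy h (left_ne_zero_of_mul h')
    exact ⟨h1, by rw [h1, h2, ← h, add_mul]⟩
  add_gt := by
    intro x y hx hy h h'
    rw [← h, ← add_mul] at h'
    exact A.add_gt x y hx hy h ((mul_eq_zero.1 h').resolve_right (zpow_ne_zero _ hu))
  surj := by
    intro z g hz
    obtain ⟨x, hx, h1, h2⟩ := A.surj (z * u ^ g) g (mul_ne_zero hz (zpow_ne_zero _ hu))
    refine ⟨x, hx, ?_, h2⟩
    rw [h1, h2, mul_assoc, ← zpow_add₀ hu, add_neg_cancel, zpow_zero, mul_one]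

theorem tw_res (A : AcF0 p K) (u : ZMod p) (hu : u ≠ 0) (x : K) : (tw A u hu).res x = A.res x := by
  classical
  unfold AcF0.res
  by_cases h : x ≠ 0 ∧ A.v x = 0
  · rw [if_pos h]
    have h' : x ≠ 0 ∧ (tw A u hu).v x = 0 := h
    rw [if_pos h']
    show A.ac x * u ^ (-A.v x) = A.ac x
    rw [h.2, neg_zero, zpow_zero, mul_one]
  · rw [if_neg h]
    have h' : ¬ (x ≠ 0 ∧ (tw A u hu).v x = 0) := h
    rw [if_neg h']

theorem tw_red (A : AcF0 p K) (u : ZMod p) (hu : u ≠ 0) (P : K[X]) :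
    (tw A u hu).red P = A.red P := by
  unfold AcF0.red
  exact Finset.sum_congr rfl fun i _ => by rw [tw_res]

theorem twi : TwiStmt := by
  intro p _ K _ A u hu
  refine ⟨{ tw A.toAcF0 u hu with hensel := ?_ }, fun x => rfl, fun x => rfl, ?_⟩
  · intro P z h1 h2 h3
    rw [tw_red] at h2 h3
    obtain ⟨x, hx1, hx2, hx3⟩ := A.hensel P z h1 h2 h3
    exact ⟨x, hx1, by rw [tw_res]; exact hx2, hx3⟩
  · intro x y
    constructor
    · rintro ⟨hx, hy, h1, h2⟩
      have h2' : A.v x = A.v y := h2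
      have h1' : A.ac x * u ^ (-A.v x) = A.ac y * u ^ (-A.v y) := h1
      rw [h2'] at h1'
      exact ⟨hx, hy, mul_right_cancel₀ (zpow_ne_zero _ hu) h1', h2'⟩
    · rintro ⟨hx, hy, h1, h2⟩
      refine ⟨hx, hy, ?_, h2⟩
      show A.ac x * u ^ (-A.v x) = A.ac y * u ^ (-A.v y)
      rw [h1, h2]

end Pool.Agent.FHQ.H70
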