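import Pool.Agent.FHQ.StmtsU

/-! Squad FHQ, row WTR: an absolutely irreducible curve over the ultraproduct has a positive
proportion of points. -/

open scoped BigOperators

noncomputable section

namespace Pool.Agent.FHQ.H70

open Polynomial

theorem coeff_swap {k : Type} [Field k] (q : k[X][X]) (m n : ℕ) :
    ((Bivariate.swap q).coeff m).coeff n = (q.coeff n).coeff m := by
  induction q using Polynomial.induction_on' with
  | add q r hq hr => rw [map_add, coeff_add, coeff_add, hq, hr, coeff_add, coeff_add]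
  | monomial a f =>
    induction f using Polynomial.induction_on' with
    | add f g hf hg =>
      rw [map_add, map_add, coeff_add, coeff_add, hf, hg, coeff_add, coeff_add]
    | monomial b r =>
      rw [Bivariate.swap_monomial_monomial, coeff_monomial, coeff_monomial]
      by_cases h1 : b = m
      · subst h1
        rw [if_pos rfl, coeff_monomial]
        by_cases h2 : a = n
        · rw [if_pos h2, if_pos h2, coeff_monomial, if_pos rfl]
        · rw [if_neg h2, if_neg h2, coeff_zero]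
      · rw [if_neg h1, coeff_zero]
        by_cases h2 : a = n
        · rw [if_pos h2, coeff_monomial, if_neg h1]
        · rw [if_neg h2, coeff_zero]

theorem xdeg {k : Type} [Field k] {u w : k[X][X]} {B : ℕ} (hu : u ≠ 0) (hw : w ≠ 0)
    (h : ∀ b, ((u * w).coeff b).natDegree ≤ B) (b : ℕ) : (u.coeff b).natDegree ≤ B := by
  have h1 : (Bivariate.swap (u * w)).natDegree ≤ B := by
    rw [natDegree_le_iff_coeff_eq_zero]
    intro m hm
    ext n
    rw [coeff_swap, coeff_zero]
    exact coeff_eq_zero_of_natDegree_lt (lt_of_le_of_lt (h n) hm)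
  have hu' : Bivariate.swap u ≠ 0 := (map_ne_zero_iff _ (Bivariate.swap (R := k)).injective).2 hu
  have hw' : Bivariate.swap w ≠ 0 := (map_ne_zero_iff _ (Bivariate.swap (R := k)).injective).2 hw
  rw [map_mul, natDegree_mul hu' hw'] at h1
  rw [natDegree_le_iff_coeff_eq_zero]
  intro m hm
  rw [← coeff_swap, coeff_eq_zero_of_natDegree_lt (n := m) (p := Bivariate.swap u) (by omega),
    coeff_zero]

section ultra

variable (p : ℕ → ℕ) [∀ i, Fact (p i).Prime] (U : Ultrafilter ℕ)

/-- the class of a sequence -/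
def cl : (∀ i, AlgebraicClosure (ZMod (p i))) →+* UF p U := Ideal.Quotient.mk (UJ p U)

variable {p U}

theorem cl_eq {f g : ∀ i, AlgebraicClosure (ZMod (p i))}
    (h : ∀ᶠ i in (U : Filter ℕ), f i = g i) : cl p U f = cl p U g := by
  unfold cl
  rw [Ideal.Quotient.eq, mem_UJ]
  exact h.mono fun i hi => by rw [Pi.sub_apply, hi, sub_self]

/-- the class of a sequence of polynomials of bounded degree -/
def cp (U : Ultrafilter ℕ) (d B : ℕ) (v : ∀ i, (AlgebraicClosure (ZMod (p i)))[X][X]) :
    (UF p U)[X][X] :=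
  ∑ b ∈ Finset.range (d + 1), monomial b (∑ a ∈ Finset.range (B + 1),
    monomial a (cl p U (fun i => ((v i).coeff b).coeff a)))

theorem coeff_cp {d B : ℕ} {v : ∀ i, (AlgebraicClosure (ZMod (p i)))[X][X]}
    (hv : ∀ᶠ i in (U : Filter ℕ), (v i).natDegree ≤ d ∧ ∀ b, ((v i).coeff b).natDegree ≤ B)
    (a b : ℕ) : ((cp U d B v).coeff b).coeff a = cl p U (fun i => ((v i).coeff b).coeff a) := by
  unfold cp
  rw [finsetSum_coeff]
  simp only [coeff_monomial]
  rw [Finset.sum_ite_eq' (Finset.range (d + 1)) b]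
  by_cases hb : b ∈ Finset.range (d + 1)
  · rw [if_pos hb, finsetSum_coeff]
    simp only [coeff_monomial]
    rw [Finset.sum_ite_eq' (Finset.range (B + 1)) a]
    by_cases ha : a ∈ Finset.range (B + 1)
    · rw [if_pos ha]
    · rw [if_neg ha, ← map_zero (cl p U)]
      refine cl_eq (hv.mono fun i hi => ?_)
      rw [Finset.mem_range] at ha
      exact (coeff_eq_zero_of_natDegree_lt (by have := hi.2 b; omega)).symm
  · rw [if_neg hb, coeff_zero, ← map_zero (cl p U)]
    refine cl_eq (hv.mono fun i hi => ?_)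
    rw [Finset.mem_range] at hb
    rw [coeff_eq_zero_of_natDegree_lt (n := b) (p := v i) (by have := hi.1; omega), coeff_zero]
    rfl

theorem coeff_cp_mul {d B : ℕ} {u w : ∀ i, (AlgebraicClosure (ZMod (p i)))[X][X]}
    (hu : ∀ᶠ i in (U : Filter ℕ), (u i).natDegree ≤ d ∧ ∀ b, ((u i).coeff b).natDegree ≤ B)
    (hw : ∀ᶠ i in (U : Filter ℕ), (w i).natDegree ≤ d ∧ ∀ b, ((w i).coeff b).natDegree ≤ B)
    (n m : ℕ) : ((cp U d B u * cp U d B w).coeff n).coeff m =
      cl p U (fun i => ((u i * w i).coeff n).coeff m) := by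
  rw [coeff_mul, finsetSum_coeff]
  have h1 : (fun i => ((u i * w i).coeff n).coeff m) =
      ∑ x ∈ Finset.HasAntidiagonal.antidiagonal n, ∑ y ∈ Finset.HasAntidiagonal.antidiagonal m,
        (fun i => ((u i).coeff x.1).coeff y.1) * (fun i => ((w i).coeff x.2).coeff y.2) := by
    funext i
    rw [coeff_mul, finsetSum_coeff, Finset.sum_apply]
    refine Finset.sum_congr rfl fun x _ => ?_
    rw [coeff_mul, Finset.sum_apply]
    rfl
  rw [h1, map_sum]
  refine Finset.sum_congr rfl fun x _ => ?_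
  rw [coeff_mul, map_sum]
  refine Finset.sum_congr rfl fun y _ => ?_
  rw [coeff_cp hu, coeff_cp hw, map_mul]

theorem not_unit_cp {d B : ℕ} {u : ∀ i, (AlgebraicClosure (ZMod (p i)))[X][X]}
    (hu : ∀ᶠ i in (U : Filter ℕ), (u i).natDegree ≤ d ∧ ∀ b, ((u i).coeff b).natDegree ≤ B)
    (hm : ∀ᶠ i in (U : Filter ℕ), (u i).Monic ∧ (u i).natDegree ≠ 0) :
    ¬ IsUnit (cp U d B u) := by
  intro hun
  have h0 := natDegree_eq_zero_of_isUnit hun
  have h1 : ∀ᶠ i in (U : Filter ℕ), ∃ a ∈ Set.Icc 1 d, (u i).natDegree = a := by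
    refine (hu.and hm).mono fun i hi => ?_
    exact ⟨(u i).natDegree, ⟨Nat.one_le_iff_ne_zero.2 hi.2.2, hi.1.1⟩, rfl⟩
  rw [Ultrafilter.eventually_exists_mem_iff (Set.finite_Icc 1 d)] at h1
  obtain ⟨a, ha, h2⟩ := h1
  have h3 : ((cp U d B u).coeff a).coeff 0 = 1 := by
    rw [coeff_cp hu, ← map_one (cl p U)]
    refine cl_eq ((h2.and hm).mono fun i hi => ?_)
    have h4 : (u i).coeff a = 1 := by
      rw [← hi.1]
      exact hi.2.1
    rw [h4, coeff_one_zero]
    rfl
  rw [coeff_eq_zero_of_natDegree_lt (n := a) (p := cp U d B u) (by rw [h0]; exact ha.1),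
    coeff_zero] at h3
  exact zero_ne_one h3

end ultra

theorem wtr (lft : LftStmt) (wei : WeiStmt) : WtrStmt := by
  intro p _ U hp h' h hL hmon hdeg hirr
  obtain ⟨B, hB⟩ := hL.bd
  obtain ⟨-, -, -, hmonic, -⟩ := lft p U hp
  have hM := hmonic h' h hL hmon
  obtain ⟨c, p0, hc⟩ := wei h.natDegree B hdeg
  refine ⟨c, ?_⟩
  obtain ⟨H, hH⟩ : ∃ H : ∀ i, (AlgebraicClosure (ZMod (p i)))[X][X], H = fun i =>
    (h' i).map (mapRingHom (algebraMap (ZMod (p i)) (AlgebraicClosure (ZMod (p i))))) := ⟨_, rfl⟩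
  have hI : ∀ᶠ i in (U : Filter ℕ), Irreducible (H i) := by
    by_contra hcon
    rw [← Ultrafilter.eventually_not] at hcon
    have hex : ∀ i, ∃ u w : (AlgebraicClosure (ZMod (p i)))[X][X],
        (((h' i).Monic ∧ (h' i).natDegree = h.natDegree) ∧ ¬ Irreducible (H i)) →
        (u.Monic ∧ w.Monic ∧ u * w = H i ∧ u.natDegree ≠ 0 ∧ w.natDegree ≠ 0) := by
      intro i
      by_cases hi : ((h' i).Monic ∧ (h' i).natDegree = h.natDegree) ∧ ¬ Irreducible (H i)
      · have h1 : (H i).Monic := by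
          rw [hH]
          exact hi.1.1.map _
        have h2 : (H i).natDegree = h.natDegree := by
          rw [hH, ← hi.1.2]
          exact hi.1.1.natDegree_map _
        have h3 : H i ≠ 1 := by
          intro h4
          rw [h4, natDegree_one] at h2
          omega
        have h4 := hi.2
        rw [h1.irreducible_iff_natDegree] at h4
        push Not at h4
        obtain ⟨u, w, hu, hw, huw, hd1, hd2⟩ := h4 h3
        exact ⟨u, w, fun _ => ⟨hu, hw, huw, hd1, hd2⟩⟩
      · exact ⟨0, 0, fun h => absurd h hi⟩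
    choose u w huw using hex
    have hgood := (hM.and hcon).mono fun i hi => (⟨hi, huw i hi⟩ : (((h' i).Monic ∧
      (h' i).natDegree = h.natDegree) ∧ ¬ Irreducible (H i)) ∧
      ((u i).Monic ∧ (w i).Monic ∧ u i * w i = H i ∧ (u i).natDegree ≠ 0 ∧ (w i).natDegree ≠ 0))
    have hHc : ∀ i b, ((H i).coeff b).natDegree ≤ B := by
      intro i b
      rw [hH]
      show (((h' i).map (mapRingHom (algebraMap (ZMod (p i)) (AlgebraicClosure (ZMod (p i)))))).coeff
        b).natDegree ≤ B
      rw [coeff_map]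
      exact (natDegree_map_le (f := algebraMap (ZMod (p i)) (AlgebraicClosure (ZMod (p i))))
        (p := (h' i).coeff b)).trans ((hB i).2 b)
    have hHd : ∀ i, (h' i).natDegree = h.natDegree → (h' i).Monic → (H i).natDegree = h.natDegree := by
      intro i h1 h2
      rw [hH, ← h1]
      exact h2.natDegree_map _
    have hu : ∀ᶠ i in (U : Filter ℕ), (u i).natDegree ≤ h.natDegree ∧
        ∀ b, ((u i).coeff b).natDegree ≤ B := by
      refine hgood.mono fun i hi => ⟨?_, ?_⟩
      · rw [← hHd i hi.1.1.2 hi.1.1.1, ← hi.2.2.2.1, hi.2.1.natDegree_mul hi.2.2.1]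
        omega
      · refine xdeg hi.2.1.ne_zero hi.2.2.1.ne_zero ?_
        rw [hi.2.2.2.1]
        exact hHc i
    have hw : ∀ᶠ i in (U : Filter ℕ), (w i).natDegree ≤ h.natDegree ∧
        ∀ b, ((w i).coeff b).natDegree ≤ B := by
      refine hgood.mono fun i hi => ⟨?_, ?_⟩
      · rw [← hHd i hi.1.1.2 hi.1.1.1, ← hi.2.2.2.1, hi.2.1.natDegree_mul hi.2.2.1]
        omega
      · refine xdeg hi.2.2.1.ne_zero hi.2.1.ne_zero ?_
        rw [mul_comm, hi.2.2.2.1]
        exact hHc i
    have heq : h = cp U h.natDegree B u * cp U h.natDegree B w := by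
      ext n m
      rw [coeff_cp_mul hu hw, ← hL.co m n]
      have h1 : emb p U (fun i => ((h' i).coeff n).coeff m) =
          cl p U (fun i => algebraMap (ZMod (p i)) (AlgebraicClosure (ZMod (p i)))
            (((h' i).coeff n).coeff m)) := rfl
      rw [h1]
      refine cl_eq (hgood.mono fun i hi => ?_)
      rw [hi.2.2.2.1, hH]
      show _ = (((h' i).map (mapRingHom (algebraMap (ZMod (p i))
        (AlgebraicClosure (ZMod (p i)))))).coeff n).coeff m
      rw [coeff_map]
      show _ = (((h' i).coeff n).map (algebraMap (ZMod (p i)) (AlgebraicClosure (ZMod (p i))))).coeff m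
      rw [coeff_map]
    rcases hirr.isUnit_or_isUnit heq with h1 | h1
    · exact not_unit_cp hu (hgood.mono fun i hi => ⟨hi.2.1, hi.2.2.2.2.1⟩) h1
    · exact not_unit_cp hw (hgood.mono fun i hi => ⟨hi.2.2.1, hi.2.2.2.2.2⟩) h1
  filter_upwards [hM, hI, hp p0] with i h1 h2 h3
  rw [hH] at h2
  exact hc (p i) h3 (h' i) ⟨h1.1, h1.2, (hB i).2⟩ h2

end Pool.Agent.FHQ.H70
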